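import Pool.Agent.Y174.SD.Stm

set_option autoImplicit false

/-! Project SD (helper174), job SD-MIN: the minimal relation, with denominators which are powers of
the greatest common divisor. -/

open MvPolynomial Pool.Agent.Y174.T

namespace Pool.Agent.Y888.SD

/-- a nonzero element all of whose irreducible divisors divide `r` divides a power of `r` -/
theorem dvd_pow_of_irr {R : Type*} [CommRing R] [IsDomain R] [UniqueFactorizationMonoid R] (r : R)
    (v : R) (hv : v ≠ 0) (h : ∀ p, Irreducible p → p ∣ v → p ∣ r) : ∃ M : ℕ, v ∣ r ^ M := by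
  revert hv h
  refine WfDvdMonoid.induction_on_irreducible v ?_ ?_ ?_
  · intro h0
    exact absurd rfl h0
  · intro u hu _ _
    exact ⟨0, hu.dvd⟩
  · intro a i ha hi IH _ h
    obtain ⟨M, hM⟩ := IH ha fun p hp hpa => h p hp (hpa.mul_left i)
    refine ⟨M + 1, ?_⟩
    rw [pow_succ, mul_comm (r ^ M)]
    exact mul_dvd_mul (h i hi (dvd_mul_right i a)) hM

section

variable {A F L : Type*} [CommRing A] [IsDomain A] [IsIntegrallyClosed A] [Field F] [Algebra A F]
  [IsFractionRing A F] [Field L] [Algebra A L] [Algebra F L] [IsScalarTower A F L]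

/-- the minimal polynomial of a multiple -/
theorem minpoly_mul {x : L} (hx : IsIntegral F x) {c : F} (hc : c ≠ 0) :
    minpoly F (algebraMap F L c * x) = (minpoly F x).scaleRoots c := by
  refine (minpoly.unique F (algebraMap F L c * x) ?_ ?_ ?_).symm
  · exact (Polynomial.monic_scaleRoots_iff c).2 (minpoly.monic hx)
  · exact Polynomial.scaleRoots_aeval_eq_zero (minpoly.aeval F x)
  · intro q hq hq0
    rw [Polynomial.degree_scaleRoots]
    have h1 : Polynomial.aeval (algebraMap F L c⁻¹ * (algebraMap F L c * x))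
        (q.scaleRoots c⁻¹) = 0 := Polynomial.scaleRoots_aeval_eq_zero hq0
    have h2 : algebraMap F L c⁻¹ * (algebraMap F L c * x) = x := by
      rw [← mul_assoc, ← map_mul, inv_mul_cancel₀ hc, map_one, one_mul]
    rw [h2] at h1
    have h3 := minpoly.min F x ((Polynomial.monic_scaleRoots_iff c⁻¹).2 hq) h1
    rwa [Polynomial.degree_scaleRoots] at h3

theorem coeff_int {x : L} (hx : IsIntegral F x) {c : A} (hc : c ≠ 0)
    (hcx : IsIntegral A (algebraMap A L c * x)) (i : ℕ) :
    ∃ w : A, (minpoly F x).coeff i * algebraMap A F c ^ ((minpoly F x).natDegree - i) =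
      algebraMap A F w := by
  have hc' : algebraMap A F c ≠ 0 := by
    intro h
    exact hc ((FaithfulSMul.algebraMap_eq_zero_iff A F).1 h)
  refine ⟨(minpoly A (algebraMap A L c * x)).coeff i, ?_⟩
  have h1 := minpoly.isIntegrallyClosed_eq_field_fractions' F hcx
  rw [IsScalarTower.algebraMap_apply A F L, minpoly_mul hx hc'] at h1
  have h2 := congrArg (fun p : Polynomial F => p.coeff i) h1
  simp only [Polynomial.coeff_scaleRoots, Polynomial.coeff_map] at h2
  rw [h2, IsScalarTower.algebraMap_apply A F L]

end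

theorem min_aux {R S F L : Type} [CommRing R] [IsDomain R] [UniqueFactorizationMonoid R]
    [CommRing S] [IsDomain S] (n : ℕ) (φ : MvPolynomial (Fin n) R →+* S)
    [Field F] [Algebra (MvPolynomial (Fin n) R) F] [IsFractionRing (MvPolynomial (Fin n) R) F]
    [Field L] [Algebra (MvPolynomial (Fin n) R) L] [Algebra F L]
    [IsScalarTower (MvPolynomial (Fin n) R) F L] [Algebra S L]
    (hSL : Function.Injective (algebraMap S L))
    (hALe : ∀ a : MvPolynomial (Fin n) R,
      algebraMap (MvPolynomial (Fin n) R) L a = algebraMap S L (φ a))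
    (h : S) (r : R) (T : Set R) (hT : ∃ D ∈ T, D ≠ 0)
    (hint : ∀ D ∈ T, ∃ s : ℕ, φ.IsIntegralElem (φ (C D) ^ s * h))
    (hirr : ∀ p : R, Irreducible p → (∀ D ∈ T, p ∣ D) → p ∣ r) :
    ∃ (d M : ℕ) (P : Fin d → MvPolynomial (Fin n) R),
      φ (C r) ^ M * h ^ d + ∑ i, φ (P i) * h ^ (i : ℕ) = 0 ∧
      ∀ Q : Fin d → MvPolynomial (Fin n) R, ∑ i, φ (Q i) * h ^ (i : ℕ) = 0 → Q = 0 := by
  classical
  set A := MvPolynomial (Fin n) R with hA
  have hAF : Function.Injective (algebraMap A F) := IsFractionRing.injective _ _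
  set x : L := algebraMap S L h with hx
  -- integrality of the multiples
  have hintL : ∀ D ∈ T, ∃ s : ℕ, IsIntegral A (algebraMap A L (C D ^ s) * x) := by
    intro D hD
    obtain ⟨s, p, hp, hp0⟩ := hint D hD
    refine ⟨s, p, hp, ?_⟩
    have h1 := congrArg (algebraMap S L) hp0
    rw [map_zero, Polynomial.hom_eval₂] at h1
    have h2 : algebraMap A L = (algebraMap S L).comp φ := RingHom.ext hALe
    rw [hALe, map_pow, ← map_mul, h2]
    exact h1
  obtain ⟨D0, hD0, hD00⟩ := hT
  have hCD0 : (C D0 : A) ≠ 0 := fun h0 => hD00 (C_injective _ _ (by rw [h0, map_zero]))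
  have hxF : IsIntegral F x := by
    obtain ⟨s, hs⟩ := hintL D0 hD0
    have h1 : IsIntegral F (algebraMap A L (C D0 ^ s) * x) := hs.tower_top
    have h2 : IsIntegral F (algebraMap F L (algebraMap A F (C D0 ^ s))⁻¹) :=
      isIntegral_algebraMap
    have h3 := h2.mul h1
    have h4 : algebraMap A F (C D0 ^ s) ≠ 0 := by
      intro h0
      exact pow_ne_zero s hCD0 (hAF (by rw [h0, map_zero]))
    have h5 : algebraMap F L (algebraMap A F (C D0 ^ s))⁻¹ * (algebraMap A L (C D0 ^ s) * x) =
        x := by
      rw [IsScalarTower.algebraMap_apply A F L, ← mul_assoc, ← map_mul, inv_mul_cancel₀ h4,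
        map_one, one_mul]
    rwa [h5] at h3
  set f := minpoly F x with hf
  -- the coefficients have denominators dividing powers of `r`
  have hco : ∀ i : ℕ, ∃ (M : ℕ) (w : A), algebraMap A F (C r) ^ M * f.coeff i =
      algebraMap A F w := by
    intro i
    set u := IsFractionRing.num A (f.coeff i) with hu
    set v : A := (IsFractionRing.den A (f.coeff i) : A) with hv
    have hv0 : v ≠ 0 := nonZeroDivisors.coe_ne_zero _
    have hrel : IsRelPrime u v := IsFractionRing.num_den_reduced A (f.coeff i)
    have huv : f.coeff i * algebraMap A F v = algebraMap A F u := by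
      have h1 : algebraMap A F u / algebraMap A F v = f.coeff i :=
        IsFractionRing.mk'_num_den' A (f.coeff i)
      rw [← h1, div_mul_cancel₀]
      intro h0
      exact hv0 (hAF (by rw [h0, map_zero]))
    have hdv : ∀ D ∈ T, D ≠ 0 → ∃ k : ℕ, v ∣ C (D ^ k) := by
      intro D hD hDn
      obtain ⟨s, hs⟩ := hintL D hD
      have hCD : (C D : A) ≠ 0 := fun h0 => hDn (C_injective _ _ (by rw [h0, map_zero]))
      obtain ⟨w, hw⟩ := coeff_int hxF (pow_ne_zero s hCD) hs i
      refine ⟨s * (f.natDegree - i), ?_⟩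
      have h1 : u * C D ^ (s * (f.natDegree - i)) = v * w := by
        apply hAF
        rw [map_mul, map_mul, ← hw, ← huv, map_pow, map_pow, pow_mul]
        ring
      rw [map_pow]
      exact hrel.symm.dvd_of_dvd_mul_left (Dvd.intro _ h1.symm)
    obtain ⟨k0, hk0⟩ := hdv D0 hD0 hD00
    obtain ⟨v0, hv0d, hv0e⟩ := (MvPolynomial.dvd_C_iff_exists (pow_ne_zero k0 hD00)).1 hk0
    have hv00 : v0 ≠ 0 := by
      rintro rfl
      exact hv0 (by rw [hv0e, map_zero])
    obtain ⟨M, t, hM⟩ := dvd_pow_of_irr r v0 hv00 (by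
      intro p hp hpv
      refine hirr p hp fun D hD => ?_
      by_cases hDn : D = 0
      · rw [hDn]
        exact dvd_zero p
      · obtain ⟨k, hk⟩ := hdv D hD hDn
        obtain ⟨v1, hv1d, hv1e⟩ := (MvPolynomial.dvd_C_iff_exists (pow_ne_zero k hDn)).1 hk
        have h1 : v1 = v0 := C_injective _ _ (hv1e.symm.trans hv0e)
        rw [h1] at hv1d
        exact (UniqueFactorizationMonoid.irreducible_iff_prime.1 hp).dvd_of_dvd_pow
          (hpv.trans hv1d))
    refine ⟨M, C t * u, ?_⟩
    rw [map_mul, ← huv, ← map_pow, ← map_pow, hM, hv0e, map_mul, map_mul]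
    ring
  choose M w hMw using hco
  set d := f.natDegree with hd
  set N := ∑ i ∈ Finset.range d, M i with hN
  have hP : ∀ i : Fin d, ∃ P : A, algebraMap A F (C r) ^ N * f.coeff i = algebraMap A F P := by
    intro i
    have h1 : M i ≤ N := Finset.single_le_sum (f := M) (fun _ _ => Nat.zero_le _)
      (Finset.mem_range.2 i.2)
    refine ⟨C r ^ (N - M i) * w i, ?_⟩
    rw [map_mul, ← hMw, map_pow, ← mul_assoc, ← pow_add, Nat.sub_add_cancel h1]
  choose P hP using hP
  refine ⟨d, N, P, ?_, ?_⟩
  · apply hSL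
    have h1 : Polynomial.aeval x f = 0 := minpoly.aeval F x
    rw [Polynomial.aeval_eq_sum_range, Finset.sum_range_succ, ← hd,
      (minpoly.monic hxF).coeff_natDegree, one_smul, Finset.sum_range] at h1
    have h2 := congrArg (fun y => algebraMap F L (algebraMap A F (C r) ^ N) * y) h1
    simp only [mul_zero, mul_add, Finset.mul_sum] at h2
    rw [map_zero, map_add, map_mul, map_pow, map_pow, map_sum, ← h2, add_comm]
    refine congrArg₂ (· + ·) ?_ ?_
    · refine Finset.sum_congr rfl fun i _ => ?_
      rw [map_mul, map_pow, ← hx, ← hALe, IsScalarTower.algebraMap_apply A F L, ← hP i, map_mul,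
        Algebra.smul_def]
      ring
    · rw [← hx, ← hALe, map_pow, ← IsScalarTower.algebraMap_apply A F L]
  · intro Q hQ
    have h1 := Fintype.linearIndependent_iff.1 (linearIndependent_pow (K := F) x)
      (fun i => algebraMap A F (Q i)) ?_
    · funext i
      apply hAF
      rw [h1 i]
      simp
    · have h2 := congrArg (algebraMap S L) hQ
      rw [map_zero, map_sum] at h2
      rw [← h2]
      refine Finset.sum_congr rfl fun i _ => ?_
      rw [map_mul, map_pow, ← hx, ← hALe, IsScalarTower.algebraMap_apply A F L, Algebra.smul_def]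

theorem t_MIN : Pool.Agent.Y174.SD.S_MIN := by
  intro R S _ _ _ _ _ n φ hφ h r T hT hint hirr
  let : Algebra (MvPolynomial (Fin n) R) S := φ.toAlgebra
  have hSL : Function.Injective (algebraMap S (FractionRing S)) := IsFractionRing.injective _ _
  have hALe : ∀ a : MvPolynomial (Fin n) R,
      algebraMap (MvPolynomial (Fin n) R) (FractionRing S) a =
        algebraMap S (FractionRing S) (φ a) := fun a =>
    IsScalarTower.algebraMap_apply (MvPolynomial (Fin n) R) S (FractionRing S) a
  have hAL : Function.Injective (algebraMap (MvPolynomial (Fin n) R) (FractionRing S)) := by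
    intro a b hab
    rw [hALe, hALe] at hab
    exact hφ (hSL hab)
  have : FaithfulSMul (MvPolynomial (Fin n) R) (FractionRing S) :=
    (faithfulSMul_iff_algebraMap_injective _ _).2 hAL
  let := FractionRing.liftAlgebra (MvPolynomial (Fin n) R) (FractionRing S)
  have := FractionRing.isScalarTower_liftAlgebra (MvPolynomial (Fin n) R) (FractionRing S)
  exact min_aux (F := FractionRing (MvPolynomial (Fin n) R)) (L := FractionRing S) n φ hSL hALe h r
    T hT hint hirr

end Pool.Agent.Y888.SD
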